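import Mathlib

/-!
# Relations represented by a point function inside an interval

A binary relation `R` on a set `X` is three-function representable if there are `f g h : X → ℝ`
with `R x y ↔ f x < g y ∧ g y < h x`.  We characterise these relations, on arbitrary (infinite)
sets, by an intrinsic condition: absence of asteroidal triples, and a countability condition on
the family of the sets `R(x) = {y | R x y}`.

Plan of the proof of sufficiency.
* `orderable_of_noAT`: a finite set system without asteroidal triples of points has a linear order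
  of the points for which all the sets are convex (strong induction on the number of points).
* `exists_preorder`: compactness (an ultrafilter on the finite subsets) gives a total preorder on
  `X` for which all the sets `R(x)` are convex.
* `exists_rep`: given the countable set `D`, the function
  `g y = ∑ d in D, 2 ^ (- code d) * ([y is above some point of R(d)] + [y is above all of R(d)])`
  represents the relation, with `f x` the supremum of `g` below `R(x)` and `h x` the infimum of `g`
  above `R(x)`.
-/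

set_option autoImplicit false

namespace Pool.Agent.ThreeFunction

open Relation

section Finite

variable {ι X : Type*}

def Step (R : ι → X → Prop) (c a b : X) : Prop := ∃ x, R x a ∧ R x b ∧ ¬ R x c

def StepOn (R : ι → X → Prop) (Y : Finset X) (c a b : X) : Prop :=
  a ∈ Y ∧ b ∈ Y ∧ ∃ x, R x a ∧ R x b ∧ ¬ R x c

def Orderable (R : ι → X → Prop) (Y : Finset X) : Prop :=
  ∃ ρ : X → ℤ, Set.InjOn ρ Y ∧
    ∀ x, ∀ a ∈ Y, ∀ b ∈ Y, ∀ c ∈ Y, ρ a < ρ b → ρ b < ρ c → R x a → R x c → R x b

lemma orderable_of_linear {R : ι → X → Prop} {L : Type*} [LinearOrder L] (Y : Finset X) (ρ : X → L)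
    (hinj : Set.InjOn ρ Y)
    (hconv : ∀ x, ∀ a ∈ Y, ∀ b ∈ Y, ∀ c ∈ Y, ρ a < ρ b → ρ b < ρ c → R x a → R x c → R x b) :
    Orderable R Y := by
  classical
  let ρ' : X → ℤ := fun u => ((Y.filter (fun v => ρ v < ρ u)).card : ℤ)
  have hmono : ∀ u ∈ Y, ∀ v ∈ Y, ρ u < ρ v → ρ' u < ρ' v := by
    intro u hu v hv huv
    change ((Y.filter (fun v => ρ v < ρ u)).card : ℤ) < ((Y.filter (fun w => ρ w < ρ v)).card : ℤ)
    have : (Y.filter (fun w => ρ w < ρ u)) ⊂ (Y.filter (fun w => ρ w < ρ v)) := by
      rw [Finset.ssubset_iff_of_subset]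
      · exact ⟨u, by simp [hu, huv], by simp⟩
      · intro w hw
        simp only [Finset.mem_filter] at hw ⊢
        exact ⟨hw.1, hw.2.trans huv⟩
    exact_mod_cast Finset.card_lt_card this
  have hlt : ∀ u ∈ Y, ∀ v ∈ Y, ρ' u < ρ' v → ρ u < ρ v := by
    intro u hu v hv h
    rcases lt_trichotomy (ρ u) (ρ v) with h1 | h1 | h1
    · exact h1
    · exfalso
      have := hinj hu hv h1
      subst this
      exact lt_irrefl _ h
    · exfalso
      exact lt_asymm h (hmono v hv u hu h1)
  refine ⟨ρ', ?_, ?_⟩
  · intro u hu v hv h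
    by_contra hne
    have : ρ u ≠ ρ v := fun h' => hne (hinj hu hv h')
    rcases lt_or_gt_of_ne this with h1 | h1
    · exact absurd h (ne_of_lt (hmono u hu v hv h1))
    · exact absurd h.symm (ne_of_lt (hmono v hv u hu h1))
  · intro x a ha b hb c hc hab hbc
    exact hconv x a ha b hb c hc (hlt a ha b hb hab) (hlt b hb c hc hbc)

lemma step_symm {R : ι → X → Prop} {c a b : X} (h : Step R c a b) : Step R c b a := by
  obtain ⟨x, h1, h2, h3⟩ := h
  exact ⟨x, h2, h1, h3⟩

lemma stepOn_symm {R : ι → X → Prop} {Y : Finset X} {c a b : X} (h : StepOn R Y c a b) :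
    StepOn R Y c b a := by
  obtain ⟨h1, h2, x, h3, h4, h5⟩ := h
  exact ⟨h2, h1, x, h4, h3, h5⟩

lemma rtg_symm {r : X → X → Prop} (hr : ∀ a b, r a b → r b a) {a b : X}
    (h : ReflTransGen r a b) : ReflTransGen r b a := by
  induction h with
  | refl => exact ReflTransGen.refl
  | tail _ h2 ih => exact ReflTransGen.head (hr _ _ h2) ih

/-- component of `a` in `Y` minus `p`. -/
noncomputable def comp (R : ι → X → Prop) (Y : Finset X) (p a : X) : Finset X := by
  classical
  exact Y.filter (fun b => ReflTransGen (StepOn R Y p) a b)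

lemma mem_comp {R : ι → X → Prop} {Y : Finset X} {p a b : X} :
    b ∈ comp R Y p a ↔ b ∈ Y ∧ ReflTransGen (StepOn R Y p) a b := by
  classical
  unfold comp
  simp

lemma comp_closed {R : ι → X → Prop} {Y : Finset X} {p a b c : X} {x : ι}
    (hb : b ∈ comp R Y p a) (hxb : R x b) (hxp : ¬ R x p) (hc : c ∈ Y) (hxc : R x c) :
    c ∈ comp R Y p a := by
  rw [mem_comp] at hb ⊢
  exact ⟨hc, hb.2.tail ⟨hb.1, hc, x, hxb, hxc, hxp⟩⟩

lemma comp_mono {R : ι → X → Prop} {Y : Finset X} {p a w : X}
    (ha : a ∈ Y) (hwY : w ∈ Y) (hw : w ∉ comp R Y p a) : comp R Y p a ⊆ comp R Y w a := by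
  intro b hb
  rw [mem_comp] at hb
  rw [mem_comp]
  refine ⟨hb.1, ?_⟩
  have key : ∀ b, ReflTransGen (StepOn R Y p) a b →
      (b ∈ Y ∧ ReflTransGen (StepOn R Y p) a b ∧ ReflTransGen (StepOn R Y w) a b) := by
    intro b hb
    induction hb with
    | refl => exact ⟨ha, ReflTransGen.refl, ReflTransGen.refl⟩
    | tail h1 h2 ih =>
      obtain ⟨h3, h4, x, h5, h6, h7⟩ := h2
      refine ⟨h4, ih.2.1.tail ⟨h3, h4, x, h5, h6, h7⟩, ?_⟩
      have hxw : ¬ R x w := by
        intro hxw
        exact hw (comp_closed (mem_comp.2 ⟨h3, ih.2.1⟩) h5 h7 hwY hxw)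
      exact ih.2.2.tail ⟨h3, h4, x, h5, h6, hxw⟩
  exact (key b hb.2).2.2

lemma self_notMem_comp {R : ι → X → Prop} {Y : Finset X} {p a : X} (hpa : a ≠ p) :
    p ∉ comp R Y p a := by
  intro h
  rw [mem_comp] at h
  rcases Relation.ReflTransGen.cases_tail h.2 with h1 | ⟨b, _, _, _, x, _, h2, h3⟩
  · exact hpa h1.symm
  · exact h3 h2

lemma crossing {r : X → X → Prop} (S : X → Prop) {a b : X} (h : ReflTransGen r a b)
    (ha : S a) (hb : ¬ S b) : ∃ u v, S u ∧ ¬ S v ∧ r u v := by
  induction h with
  | refl => exact absurd ha hb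
  | @tail b c h1 h2 ih =>
    by_cases hS : S b
    · exact ⟨b, c, hS, hb, h2⟩
    · exact ih hS

lemma stepOn_rtg_to_trans {R : ι → X → Prop} {Y : Finset X} {c a b : X} (hab : a ≠ b)
    (h : ReflTransGen (StepOn R Y c) a b) : TransGen (Step R c) a b := by
  have h1 : ReflTransGen (Step R c) a b := by
    have hle : StepOn R Y c ≤ Step R c := by
      rintro u v ⟨_, _, x, h⟩
      exact ⟨x, h⟩
    exact ReflTransGen.mono hle a b h
  rcases (reflTransGen_iff_eq_or_transGen.1 h1) with h2 | h2
  · exact absurd h2.symm hab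
  · exact h2

theorem orderable_of_noAT {R : ι → X → Prop}
    (hAT : ∀ a b c : X, ¬ (TransGen (Step R c) a b ∧ TransGen (Step R a) b c ∧
      TransGen (Step R b) a c)) :
    ∀ (n : ℕ) (Y : Finset X), Y.card = n → Orderable R Y := by
  classical
  intro n
  induction n using Nat.strong_induction_on with
  | _ n ih =>
  intro Y hYn
  have IH : ∀ Z : Finset X, Z.card < Y.card → Orderable R Z := by
    intro Z hZ
    exact ih Z.card (hYn ▸ hZ) Z rfl
  by_cases hsmall : Y.card ≤ 1
  · refine ⟨fun _ => 0, ?_, ?_⟩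
    · intro u hu v hv _
      exact Finset.card_le_one.1 hsmall u hu v hv
    · intro x a _ b _ c _ h
      exact absurd h (lt_irrefl _)
  push Not at hsmall
  obtain ⟨u0, hu0, v0, hv0, huv0⟩ := Finset.one_lt_card.1 hsmall
  obtain ⟨⟨z, a⟩, hP, hmax⟩ := Finset.exists_max_image
    ((Y ×ˢ Y).filter (fun p => p.2 ≠ p.1)) (fun p => (comp R Y p.1 p.2).card)
    ⟨(u0, v0), by simp [hu0, hv0, huv0.symm]⟩
  simp only [Finset.mem_filter, Finset.mem_product] at hP hmax
  obtain ⟨⟨hzY, haY⟩, haz⟩ := hP
  set C := comp R Y z a with hC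
  have hCY : C ⊆ Y := by
    intro u hu
    exact (mem_comp.1 hu).1
  have haC : a ∈ C := mem_comp.2 ⟨haY, ReflTransGen.refl⟩
  have hzC : z ∉ C := self_notMem_comp haz
  by_cases hW : ∃ w ∈ Y, w ∉ C ∧ w ≠ z
  · -- contraction case
    obtain ⟨w0, hw0Y, hw0C, hw0z⟩ := hW
    have H : ∀ x, ∀ b ∈ C, R x b → ∀ u ∈ Y, u ∉ C → R x u → ∀ w ∈ Y, w ∉ C → R x w := by
      intro x b hb hxb u hu huC hxu
      have hxz : R x z := by
        by_contra hxz
        exact huC (comp_closed hb hxb hxz hu hxu)
      intro w hw hwC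
      by_cases hwz : w = z
      · rw [hwz]; exact hxz
      by_contra hxw
      have hsub : C ⊆ comp R Y w a := comp_mono haY hw hwC
      have hzw : z ∈ comp R Y w a := comp_closed (hsub hb) hxb hxw hzY hxz
      have haw : a ≠ w := fun h => hwC (h ▸ haC)
      have hlt : C.card < (comp R Y w a).card :=
        Finset.card_lt_card ((Finset.ssubset_iff_of_subset hsub).2 ⟨z, hzw, hzC⟩)
      have := hmax (w, a) ⟨⟨hw, haY⟩, haw⟩
      simp only at this
      omega
    have hY1 : (insert z C).card < Y.card := by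
      apply Finset.card_lt_card
      rw [Finset.ssubset_iff_of_subset (Finset.insert_subset hzY hCY)]
      exact ⟨w0, hw0Y, by simp [hw0z, hw0C]⟩
    have hY2 : (Y \ C).card < Y.card := by
      apply Finset.card_lt_card
      rw [Finset.ssubset_iff_of_subset Finset.sdiff_subset]
      exact ⟨a, haY, by simp [haC]⟩
    obtain ⟨ρ1, h1inj, h1conv⟩ := IH _ hY1
    obtain ⟨ρ2, h2inj, h2conv⟩ := IH _ hY2
    have hzY1 : z ∈ insert z C := Finset.mem_insert_self _ _
    have hCY1 : ∀ u ∈ C, u ∈ insert z C := fun u hu => Finset.mem_insert_of_mem hu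
    have hY2' : ∀ u ∈ Y, u ∉ C → u ∈ Y \ C := fun u hu hc => Finset.mem_sdiff.2 ⟨hu, hc⟩
    have hne : ∀ u ∈ C, ρ1 u ≠ ρ1 z := by
      intro u hu h
      have := h1inj (Finset.mem_coe.2 (hCY1 u hu)) (Finset.mem_coe.2 hzY1) h
      exact hzC (this ▸ hu)
    refine orderable_of_linear Y
      (fun u => if u ∈ C then toLex (ρ1 u, (0 : ℤ)) else toLex (ρ1 z, ρ2 u)) ?_ ?_
    · intro u hu v hv h
      have hu' : u ∈ Y := hu
      have hv' : v ∈ Y := hv
      by_cases huC : u ∈ C <;> by_cases hvC : v ∈ C
      · simp only [huC, hvC, if_true, EmbeddingLike.apply_eq_iff_eq, Prod.mk.injEq] at h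
        exact h1inj (Finset.mem_coe.2 (hCY1 u huC)) (Finset.mem_coe.2 (hCY1 v hvC)) h.1
      · simp only [huC, hvC, if_true, if_false, EmbeddingLike.apply_eq_iff_eq, Prod.mk.injEq] at h
        exact absurd h.1 (hne u huC)
      · simp only [huC, hvC, if_true, if_false, EmbeddingLike.apply_eq_iff_eq, Prod.mk.injEq] at h
        exact absurd h.1.symm (hne v hvC)
      · simp only [huC, hvC, if_false, EmbeddingLike.apply_eq_iff_eq, Prod.mk.injEq] at h
        exact h2inj (Finset.mem_coe.2 (hY2' u hu' huC)) (Finset.mem_coe.2 (hY2' v hv' hvC)) h.2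
    · intro x p hp q hq r hr hpq hqr hxp hxr
      by_cases hpC : p ∈ C <;> by_cases hqC : q ∈ C <;> by_cases hrC : r ∈ C <;>
        simp only [hpC, hqC, hrC, if_true, if_false, Prod.Lex.toLex_lt_toLex, lt_irrefl,
          and_false, or_false, false_or, true_and] at hpq hqr
      · exact h1conv x p (hCY1 p hpC) q (hCY1 q hqC) r (hCY1 r hrC) hpq hqr hxp hxr
      · have hxz : R x z := H x p hpC hxp r hr hrC hxr z hzY hzC
        have hqz : ρ1 q < ρ1 z := by
          rcases hqr with h | h
          · exact h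
          · exact absurd h.1 (hne q hqC)
        exact h1conv x p (hCY1 p hpC) q (hCY1 q hqC) z hzY1 hpq hqz hxp hxz
      · have hpz : ρ1 p < ρ1 z := by
          rcases hpq with h | h
          · exact h
          · exact absurd h.1 (hne p hpC)
        have hzr : ρ1 z < ρ1 r := by
          rcases hqr with h | h
          · exact h
          · exact absurd h.1.symm (hne r hrC)
        have hxz : R x z := h1conv x p (hCY1 p hpC) z hzY1 r (hCY1 r hrC) hpz hzr hxp hxr
        exact H x p hpC hxp z hzY hzC hxz q hq hqC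
      · exact H x p hpC hxp r hr hrC hxr q hq hqC
      · have hxz : R x z := H x r hrC hxr p hp hpC hxp z hzY hzC
        have hzq : ρ1 z < ρ1 q := by
          rcases hpq with h | h
          · exact h
          · exact absurd h.1.symm (hne q hqC)
        exact h1conv x z hzY1 q (hCY1 q hqC) r (hCY1 r hrC) hzq hqr hxz hxr
      · exfalso
        have h1 : ρ1 z ≤ ρ1 q := by
          rcases hpq with h | h
          · exact h.le
          · exact h.1.le
        have h2 : ρ1 q ≤ ρ1 z := by
          rcases hqr with h | h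
          · exact h.le
          · exact h.1.le
        exact hne q hqC (le_antisymm h2 h1)
      · exact H x r hrC hxr p hp hpC hxp q hq hqC
      · exact h2conv x p (hY2' p hp hpC) q (hY2' q hq hqC) r (hY2' r hr hrC) hpq hqr hxp hxr
  · -- ranking case
    push Not at hW
    have hall : ∀ u ∈ Y, u ≠ z → ReflTransGen (StepOn R Y z) a u := by
      intro u hu huz
      by_contra hcon
      exact huz (hW u hu (fun h => hcon (mem_comp.1 h).2))
    have hconn : ∀ u ∈ Y, u ≠ z → ∀ v ∈ Y, v ≠ z → ReflTransGen (StepOn R Y z) u v := by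
      intro u hu huz v hv hvz
      exact (rtg_symm (fun _ _ => stepOn_symm) (hall u hu huz)).trans (hall v hv hvz)
    have F0 : ∀ u, z ∈ comp R Y u z := fun u => mem_comp.2 ⟨hzY, ReflTransGen.refl⟩
    have F0' : ∀ u, u ≠ z → u ∉ comp R Y u z := fun u hu => self_notMem_comp hu.symm
    have F1 : ∀ u ∈ Y, u ≠ z → ∀ v ∈ Y, v ≠ z → u ≠ v → v ∈ comp R Y u z → u ∈ comp R Y v z →
        False := by
      intro u hu huz v hv hvz huv h1 h2
      have t1 : TransGen (Step R u) z v := stepOn_rtg_to_trans hvz.symm (mem_comp.1 h1).2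
      have t2 : TransGen (Step R v) z u := stepOn_rtg_to_trans huz.symm (mem_comp.1 h2).2
      have t3 : TransGen (Step R z) v u :=
        stepOn_rtg_to_trans huv.symm (hconn v hv hvz u hu huz)
      exact hAT z v u ⟨t1, t3, t2⟩
    have F2 : ∀ u, ∀ v ∈ Y, v ∉ comp R Y u z → comp R Y u z ⊆ comp R Y v z := by
      intro u v hv h
      exact comp_mono hzY hv h
    let i : X → ℕ := fun u => if u = z then 0 else (comp R Y u z).card
    have iz : i z = 0 := by simp [i]
    have inz : ∀ u, u ≠ z → i u = (comp R Y u z).card := by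
      intro u hu
      simp [i, hu]
    have ipos : ∀ u, u ≠ z → 0 < i u := by
      intro u hu
      rw [inz u hu]
      exact Finset.card_pos.2 ⟨z, F0 u⟩
    have F3 : ∀ a ∈ Y, ∀ b ∈ Y, i a < i b → a ∈ comp R Y b z := by
      intro a ha b hb hab
      have hbz : b ≠ z := by
        intro h
        rw [h, iz] at hab
        omega
      by_cases haz : a = z
      · rw [haz]; exact F0 b
      · by_contra hcon
        have := Finset.card_le_card (F2 b a ha hcon)
        rw [inz a haz, inz b hbz] at hab
        omega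
    have F4 : ∀ b ∈ Y, b ≠ z → ∀ c ∈ Y, c ≠ z → i b ≤ i c → c ∉ comp R Y b z := by
      intro b hb hbz c hc hcz hbc hcon
      have hne : b ≠ c := by
        intro h
        rw [h] at hcon
        exact F0' c hcz hcon
      have h1 : b ∉ comp R Y c z := fun h => F1 b hb hbz c hc hcz hne hcon h
      have h2 := F2 c b hb h1
      have h3 : (comp R Y c z).card < (comp R Y b z).card :=
        Finset.card_lt_card ((Finset.ssubset_iff_of_subset h2).2 ⟨c, hcon, F0' c hcz⟩)
      rw [inz b hbz, inz c hcz] at hbc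
      omega
    have F5 : ∀ x, ∀ a ∈ Y, ∀ b ∈ Y, ∀ c ∈ Y, i a < i b → i b ≤ i c → R x a → R x c → R x b := by
      intro x a ha b hb c hc hab hbc hxa hxc
      have hbz : b ≠ z := by
        intro h
        rw [h, iz] at hab
        omega
      have hcz : c ≠ z := by
        intro h
        rw [h, iz] at hbc
        omega
      by_contra hxb
      exact F4 b hb hbz c hc hcz hbc (comp_closed (F3 a ha b hb hab) hxa hxb hc hxc)
    have F6 : ∀ u ∈ Y, u ≠ z → ∀ v ∈ Y, v ≠ z → i u = i v → comp R Y v z = comp R Y u z := by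
      intro u hu huz v hv hvz huv
      apply Finset.eq_of_subset_of_card_le
      · exact F2 v u hu (F4 v hv hvz u hu huz huv.ge)
      · rw [inz u huz, inz v hvz] at huv
        exact huv.le
    have cls : ∀ k : ℕ, ∃ ρ : X → ℤ, (∀ p ∈ Y, i p = k → ∀ q ∈ Y, i q = k → ρ p = ρ q → p = q) ∧
        (∀ x, ∀ p ∈ Y, i p = k → ∀ q ∈ Y, i q = k → ∀ r ∈ Y, i r = k →
          ρ p < ρ q → ρ q < ρ r → R x p → R x r → R x q) ∧
        (∀ x, ∀ p ∈ Y, i p = k → ∀ q ∈ Y, i q = k → ∀ c ∈ Y, k < i c →
          ρ p < ρ q → R x p → R x c → R x q) := by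
      intro k
      by_cases hk : k = 0
      · refine ⟨fun _ => 0, ?_, ?_, ?_⟩
        · intro p hp hpk q hq hqk _
          have h1 : p = z := by
            by_contra h
            have := ipos p h
            omega
          have h2 : q = z := by
            by_contra h
            have := ipos q h
            omega
          rw [h1, h2]
        · intro x p _ _ q _ _ r _ _ h
          exact absurd h (lt_irrefl _)
        · intro x p _ _ q _ _ r _ _ h
          exact absurd h (lt_irrefl _)
      have hnz : ∀ u, i u = k → u ≠ z := by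
        intro u hu h
        rw [h, iz] at hu
        exact hk hu.symm
      set E := Y.filter (fun u => i u = k) with hE
      have hEY : E ⊆ Y := Finset.filter_subset _ _
      have hzE : z ∉ E := by
        intro h
        rw [hE, Finset.mem_filter] at h
        exact hnz z h.2 rfl
      have memE : ∀ u ∈ Y, i u = k → u ∈ E := fun u h1 h2 => Finset.mem_filter.2 ⟨h1, h2⟩
      by_cases hT : ∃ e ∈ Y, k < i e
      · obtain ⟨e0, he0, hke0⟩ := hT
        obtain ⟨e, heT, hemin⟩ := Finset.exists_min_image (Y.filter (fun u => k < i u)) i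
          ⟨e0, Finset.mem_filter.2 ⟨he0, hke0⟩⟩
        rw [Finset.mem_filter] at heT
        obtain ⟨heY, hke⟩ := heT
        have hez : e ≠ z := by
          intro h
          rw [h, iz] at hke
          omega
        have heE : e ∉ E := by
          intro h
          rw [hE, Finset.mem_filter] at h
          omega
        by_cases hEne : E.Nonempty
        · have hcard : (insert e E).card < Y.card := by
            apply Finset.card_lt_card
            rw [Finset.ssubset_iff_of_subset (Finset.insert_subset heY hEY)]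
            exact ⟨z, hzY, by simp [hez.symm, hzE]⟩
          obtain ⟨ρ, hinj, hconv⟩ := IH _ hcard
          have hein : e ∈ insert e E := Finset.mem_insert_self _ _
          have hEin : ∀ u ∈ E, u ∈ insert e E := fun u hu => Finset.mem_insert_of_mem hu
          obtain ⟨u0, hu0⟩ := hEne
          have hu0' := hu0
          rw [hE, Finset.mem_filter] at hu0'
          obtain ⟨hu0Y, hu0k⟩ := hu0'
          have hu0z : u0 ≠ z := hnz u0 hu0k
          -- a set containing E and missing e
          obtain ⟨x0, hx0E, hx0e⟩ : ∃ x0, (∀ v ∈ E, R x0 v) ∧ ¬ R x0 e := by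
            have h1 : u0 ∈ comp R Y e z := F3 u0 hu0Y e heY (by omega)
            obtain ⟨b, b', hb, hb', hbb', hb'Y, x0, hx0b, hx0b', hx0e⟩ :=
              crossing (fun u => u ∈ comp R Y u0 z) (mem_comp.1 h1).2 (F0 u0) (F0' u0 hu0z)
            refine ⟨x0, ?_, hx0e⟩
            intro v hv
            rw [hE, Finset.mem_filter] at hv
            have hvz : v ≠ z := hnz v hv.2
            have heq : comp R Y v z = comp R Y u0 z :=
              F6 u0 hu0Y hu0z v hv.1 hvz (by omega)
            by_contra hxv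
            apply hb'
            rw [← heq]
            exact comp_closed (heq ▸ hb) hx0b hxv hb'Y hx0b'
          have hnb : ∀ p ∈ E, ∀ q ∈ E, ρ p < ρ e → ρ e < ρ q → False := by
            intro p hp q hq h1 h2
            exact hx0e (hconv x0 p (hEin p hp) e hein q (hEin q hq) h1 h2 (hx0E p hp) (hx0E q hq))
          have hne : ∀ p ∈ E, ρ p ≠ ρ e := by
            intro p hp h
            have := hinj (Finset.mem_coe.2 (hEin p hp)) (Finset.mem_coe.2 hein) h
            exact heE (this ▸ hp)
          have hFe : ∀ x, ∀ p ∈ Y, i p = k → ∀ c ∈ Y, k < i c → R x p → R x c → R x e := by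
            intro x p hp hpk c hc hkc hxp hxc
            exact F5 x p hp e heY c hc (by omega)
              (hemin c (Finset.mem_filter.2 ⟨hc, hkc⟩)) hxp hxc
          rcases lt_or_gt_of_ne (hne u0 hu0) with hlow | hhigh
          · have hallow : ∀ q ∈ E, ρ q < ρ e := by
              intro q hq
              rcases lt_or_gt_of_ne (hne q hq) with h | h
              · exact h
              · exact (hnb u0 hu0 q hq hlow h).elim
            refine ⟨ρ, ?_, ?_, ?_⟩
            · intro p hp hpk q hq hqk h
              exact hinj (Finset.mem_coe.2 (hEin p (memE p hp hpk)))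
                (Finset.mem_coe.2 (hEin q (memE q hq hqk))) h
            · intro x p hp hpk q hq hqk r hr hrk
              exact hconv x p (hEin p (memE p hp hpk)) q (hEin q (memE q hq hqk)) r
                (hEin r (memE r hr hrk))
            · intro x p hp hpk q hq hqk c hc hkc hpq hxp hxc
              exact hconv x p (hEin p (memE p hp hpk)) q (hEin q (memE q hq hqk)) e hein hpq
                (hallow q (memE q hq hqk)) hxp (hFe x p hp hpk c hc hkc hxp hxc)
          · have halhigh : ∀ q ∈ E, ρ e < ρ q := by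
              intro q hq
              rcases lt_or_gt_of_ne (hne q hq) with h | h
              · exact (hnb q hq u0 hu0 h hhigh).elim
              · exact h
            refine ⟨fun u => - ρ u, ?_, ?_, ?_⟩
            · intro p hp hpk q hq hqk h
              exact hinj (Finset.mem_coe.2 (hEin p (memE p hp hpk)))
                (Finset.mem_coe.2 (hEin q (memE q hq hqk))) (neg_injective h)
            · intro x p hp hpk q hq hqk r hr hrk hpq hqr hxp hxr
              exact hconv x r (hEin r (memE r hr hrk)) q (hEin q (memE q hq hqk)) p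
                (hEin p (memE p hp hpk)) (neg_lt_neg_iff.1 hqr) (neg_lt_neg_iff.1 hpq) hxr hxp
            · intro x p hp hpk q hq hqk c hc hkc hpq hxp hxc
              exact hconv x e hein q (hEin q (memE q hq hqk)) p (hEin p (memE p hp hpk))
                (halhigh q (memE q hq hqk)) (neg_lt_neg_iff.1 hpq)
                (hFe x p hp hpk c hc hkc hxp hxc) hxp
        · rw [Finset.not_nonempty_iff_eq_empty] at hEne
          refine ⟨fun _ => 0, ?_, ?_, ?_⟩
          · intro p hp hpk
            have := memE p hp hpk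
            rw [hEne] at this
            exact absurd this (Finset.notMem_empty _)
          · intro x p hp hpk
            have := memE p hp hpk
            rw [hEne] at this
            exact absurd this (Finset.notMem_empty _)
          · intro x p hp hpk
            have := memE p hp hpk
            rw [hEne] at this
            exact absurd this (Finset.notMem_empty _)
      · push Not at hT
        have hcard : E.card < Y.card := by
          apply Finset.card_lt_card
          rw [Finset.ssubset_iff_of_subset hEY]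
          exact ⟨z, hzY, hzE⟩
        obtain ⟨ρ, hinj, hconv⟩ := IH _ hcard
        refine ⟨ρ, ?_, ?_, ?_⟩
        · intro p hp hpk q hq hqk h
          exact hinj (Finset.mem_coe.2 (memE p hp hpk)) (Finset.mem_coe.2 (memE q hq hqk)) h
        · intro x p hp hpk q hq hqk r hr hrk
          exact hconv x p (memE p hp hpk) q (memE q hq hqk) r (memE r hr hrk)
        · intro x p hp hpk q hq hqk c hc hkc
          have := hT c hc
          omega
    choose ρ hρinj hρconv hρtop using cls
    refine orderable_of_linear Y (fun u => toLex (i u, ρ (i u) u)) ?_ ?_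
    · intro u hu v hv h
      simp only [EmbeddingLike.apply_eq_iff_eq, Prod.mk.injEq] at h
      obtain ⟨h1, h2⟩ := h
      rw [← h1] at h2
      exact hρinj (i u) u hu rfl v hv h1.symm h2
    · intro x p hp q hq r hr hpq hqr hxp hxr
      simp only [Prod.Lex.toLex_lt_toLex] at hpq hqr
      have hqr' : i q ≤ i r := by
        rcases hqr with h | h
        · exact h.le
        · exact h.1.le
      rcases hpq with hpq | ⟨hpq1, hpq2⟩
      · exact F5 x p hp q hq r hr hpq hqr' hxp hxr
      · rw [hpq1] at hpq2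
        rcases hqr with h | ⟨h1, h2⟩
        · exact hρtop (i q) x p hp hpq1 q hq rfl r hr h hpq2 hxp hxr
        · rw [← h1] at h2
          exact hρconv (i q) x p hp hpq1 q hq rfl r hr h1.symm hpq2 h2 hxp hxr

end Finite

theorem exists_preorder {ι X : Type*} {R : ι → X → Prop}
    (hAT : ∀ a b c : X, ¬ (TransGen (Step R c) a b ∧ TransGen (Step R a) b c ∧
      TransGen (Step R b) a c)) :
    ∃ r : X → X → Prop, (∀ a b, r a b ∨ r b a) ∧ (∀ a b c, r a b → r b c → r a c) ∧
      (∀ x a b c, r a b → r b c → R x a → R x c → R x b) := by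
  classical
  have h : ∀ Y : Finset X, Orderable R Y := fun Y => orderable_of_noAT hAT _ Y rfl
  choose ρ hinj hconv using h
  let U : Ultrafilter (Finset X) := Ultrafilter.of Filter.atTop
  have hU : ∀ a : X, ∀ᶠ Y in (U : Filter (Finset X)), a ∈ Y := by
    intro a
    have : ∀ᶠ Y in (Filter.atTop : Filter (Finset X)), a ∈ Y := by
      filter_upwards [Filter.eventually_ge_atTop {a}] with Y hY
      exact hY (Finset.mem_singleton_self a)
    exact (Ultrafilter.of_le _) this
  refine ⟨fun a b => ∀ᶠ Y in (U : Filter (Finset X)), ρ Y a ≤ ρ Y b, ?_, ?_, ?_⟩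
  · intro a b
    rw [← Ultrafilter.eventually_or]
    exact Filter.Eventually.of_forall (fun Y => le_total _ _)
  · intro a b c hab hbc
    filter_upwards [hab, hbc] with Y h1 h2 using h1.trans h2
  · intro x a b c hab hbc hxa hxc
    by_contra hxb
    have : ∀ᶠ Y in (U : Filter (Finset X)), False := by
      filter_upwards [hab, hbc, hU a, hU b, hU c] with Y h1 h2 h3 h4 h5
      have h6 : ρ Y a ≠ ρ Y b := fun h => hxb (hinj Y h3 h4 h ▸ hxa)
      have h7 : ρ Y b ≠ ρ Y c := fun h => hxb ((hinj Y h4 h5 h).symm ▸ hxc)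
      exact hxb (hconv Y x a h3 b h4 c h5 (lt_of_le_of_ne h1 h6) (lt_of_le_of_ne h2 h7) hxa hxc)
    obtain ⟨Y, hY⟩ := this.exists
    exact hY

section Representation

variable {X : Type*} {R : X → X → Prop}

theorem exists_rep {r : X → X → Prop} (rtot : ∀ a b, r a b ∨ r b a)
    (rtrans : ∀ a b c, r a b → r b c → r a c)
    (rconv : ∀ x a b c, r a b → r b c → R x a → R x c → R x b)
    {D : Set X} (hD : D.Countable)
    (hDR : ∀ x y, R x y → ∃ d ∈ D, ∃ d' ∈ D, R d y ∧ R d' y ∧ ∀ z, R d z → R d' z → R x z) :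
    ∃ f g h : X → ℝ, ∀ x y, R x y ↔ f x < g y ∧ g y < h x := by
  classical
  have : Encodable D := hD.toEncodable
  let w : D → ℝ := fun d => (1 / 2 : ℝ) ^ (Encodable.encode d)
  have hw0 : ∀ d, 0 < w d := fun d => by positivity
  have hws : Summable w := summable_geometric_two_encode
  let U : D → X → Prop := fun d y => ∃ z, R d z ∧ r z y
  let V : D → X → Prop := fun d y => ∀ z, R d z → ¬ r y z
  have hUup : ∀ d y y', r y y' → U d y → U d y' := by
    rintro d y y' hyy' ⟨z, hz, hzy⟩
    exact ⟨z, hz, rtrans _ _ _ hzy hyy'⟩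
  have hVup : ∀ d y y', r y y' → V d y → V d y' := by
    intro d y y' hyy' hV z hz hy'z
    exact hV z hz (rtrans _ _ _ hyy' hy'z)
  let T : X → D → ℝ := fun y d => (if U d y then w d else 0) + (if V d y then w d else 0)
  have hT0 : ∀ y d, 0 ≤ T y d := by
    intro y d
    have := (hw0 d).le
    simp only [T]
    split_ifs <;> linarith
  have hT2 : ∀ y d, T y d ≤ 2 * w d := by
    intro y d
    have := (hw0 d).le
    simp only [T]
    split_ifs <;> linarith
  have hTs : ∀ y, Summable (T y) := fun y =>
    Summable.of_nonneg_of_le (hT0 y) (hT2 y) (hws.mul_left 2)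
  have hTmono : ∀ y y', r y y' → ∀ d, T y d ≤ T y' d := by
    intro y y' hyy' d
    have h0 := (hw0 d).le
    have h1 := hUup d y y' hyy'
    have h2 := hVup d y y' hyy'
    simp only [T]
    by_cases a1 : U d y <;> by_cases a2 : V d y <;> by_cases a3 : U d y' <;>
      by_cases a4 : V d y' <;> simp only [a1, a2, a3, a4, if_true, if_false] at h1 h2 ⊢ <;>
      first | linarith | exact absurd (h1 trivial) id | exact absurd (h2 trivial) id
  let g : X → ℝ := fun y => ∑' d, T y d
  let S : ℝ := ∑' d, 2 * w d
  have hg0 : ∀ y, 0 ≤ g y := fun y => tsum_nonneg (hT0 y)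
  have hgS : ∀ y, g y ≤ S := fun y => (hTs y).tsum_le_tsum (hT2 y) (hws.mul_left 2)
  have hgap : ∀ y y', r y y' → ∀ d, T y d + w d ≤ T y' d → g y + w d ≤ g y' := by
    intro y y' hyy' d hd
    have h1 : g y' - g y = ∑' e, (T y' e - T y e) := ((hTs y').tsum_sub (hTs y)).symm
    have h2 : T y' d - T y d ≤ ∑' e, (T y' e - T y e) := by
      apply ((hTs y').sub (hTs y)).le_tsum d
      intro e _
      have := hTmono y y' hyy' e
      linarith
    linarith
  -- gap below
  have hbelow : ∀ d : D, ∀ y y', r y' y → R d y → ¬ R d y' → g y' + w d ≤ g y := by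
    intro d y y' hy'y hdy hdy'
    apply hgap y' y hy'y d
    have hryy : r y y := (rtot y y).elim id id
    have u1 : U d y := ⟨y, hdy, hryy⟩
    have u2 : ¬ U d y' := by
      rintro ⟨z, hz, hzy'⟩
      exact hdy' (rconv d z y' y hzy' hy'y hz hdy)
    have v1 : ¬ V d y := fun h => h y hdy hryy
    have v2 : ¬ V d y' := fun h => h y hdy hy'y
    simp [T, u1, u2, v1, v2]
  have habove : ∀ d : D, ∀ y y', r y y' → R d y → ¬ R d y' → g y + w d ≤ g y' := by
    intro d y y' hyy' hdy hdy'
    apply hgap y y' hyy' d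
    have hryy : r y y := (rtot y y).elim id id
    have u1 : U d y := ⟨y, hdy, hryy⟩
    have u2 : U d y' := ⟨y, hdy, hyy'⟩
    have v1 : ¬ V d y := fun h => h y hdy hryy
    have v2 : V d y' := by
      intro z hz hy'z
      exact hdy' (rconv d y y' z hyy' hy'z hdy hz)
    simp [T, u1, u2, v1, v2]
  let A : X → Set ℝ := fun x => insert (-1) {t | ∃ y, (∀ z, R x z → ¬ r z y) ∧ g y = t}
  let B : X → Set ℝ := fun x => insert (S + 1) {t | ∃ y, (∀ z, R x z → ¬ r y z) ∧ g y = t}
  have hS0 : 0 ≤ S := tsum_nonneg (fun d => by have := (hw0 d).le; linarith)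
  have hAb : ∀ x, BddAbove (A x) := by
    intro x
    refine ⟨S, ?_⟩
    rintro t (rfl | ⟨y, _, rfl⟩)
    · linarith
    · exact hgS y
  have hBb : ∀ x, BddBelow (B x) := by
    intro x
    refine ⟨0, ?_⟩
    rintro t (rfl | ⟨y, _, rfl⟩)
    · linarith
    · exact hg0 y
  refine ⟨fun x => sSup (A x), g, fun x => sInf (B x), ?_⟩
  intro x y
  constructor
  · intro hxy
    obtain ⟨d, hd, d', hd', hdy, hd'y, hsub⟩ := hDR x y hxy
    have hwd := hw0 ⟨d, hd⟩
    have hwd' := hw0 ⟨d', hd'⟩
    set δ := min (w ⟨d, hd⟩) (w ⟨d', hd'⟩) with hδ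
    have hδ0 : 0 < δ := lt_min hwd hwd'
    have hδ1 : δ ≤ w ⟨d, hd⟩ := min_le_left _ _
    have hδ2 : δ ≤ w ⟨d', hd'⟩ := min_le_right _ _
    constructor
    · have h1 : sSup (A x) ≤ max (-1) (g y - δ) := by
        apply csSup_le ⟨-1, Set.mem_insert _ _⟩
        rintro t (rfl | ⟨y', hy', rfl⟩)
        · exact le_max_left _ _
        · refine le_trans ?_ (le_max_right _ _)
          have hy'y : r y' y := (rtot y' y).resolve_right (hy' y hxy)
          have hnot : ¬ R x y' := fun h => hy' y' h ((rtot y' y').elim id id)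
          by_cases hc : R d y'
          · have hc' : ¬ R d' y' := fun h => hnot (hsub y' hc h)
            have := hbelow ⟨d', hd'⟩ y y' hy'y hd'y hc'
            linarith
          · have := hbelow ⟨d, hd⟩ y y' hy'y hdy hc
            linarith
      refine lt_of_le_of_lt h1 (max_lt ?_ (by linarith))
      have := hg0 y
      linarith
    · have h1 : min (S + 1) (g y + δ) ≤ sInf (B x) := by
        apply le_csInf ⟨S + 1, Set.mem_insert _ _⟩
        rintro t (rfl | ⟨y', hy', rfl⟩)
        · exact min_le_left _ _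
        · refine le_trans (min_le_right _ _) ?_
          have hyy' : r y y' := (rtot y y').resolve_right (hy' y hxy)
          have hnot : ¬ R x y' := fun h => hy' y' h ((rtot y' y').elim id id)
          by_cases hc : R d y'
          · have hc' : ¬ R d' y' := fun h => hnot (hsub y' hc h)
            have := habove ⟨d', hd'⟩ y y' hyy' hd'y hc'
            linarith
          · have := habove ⟨d, hd⟩ y y' hyy' hdy hc
            linarith
      refine lt_of_lt_of_le (lt_min ?_ (by linarith)) h1
      have := hgS y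
      linarith
  · rintro ⟨h1, h2⟩
    by_contra hxy
    by_cases hb : ∀ z, R x z → ¬ r z y
    · have : g y ≤ sSup (A x) := le_csSup (hAb x) (Set.mem_insert_of_mem _ ⟨y, hb, rfl⟩)
      linarith
    by_cases ha : ∀ z, R x z → ¬ r y z
    · have : sInf (B x) ≤ g y := csInf_le (hBb x) (Set.mem_insert_of_mem _ ⟨y, ha, rfl⟩)
      linarith
    push Not at hb ha
    obtain ⟨z, hz, hzy⟩ := hb
    obtain ⟨z', hz', hyz'⟩ := ha
    exact hxy (rconv x z y z' hzy hyz' hz hz')

theorem noAT_of_rep {f g h : X → ℝ} (hR : ∀ x y, R x y ↔ f x < g y ∧ g y < h x) (a b c : X) :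
    ¬ (TransGen (Step R c) a b ∧ TransGen (Step R a) b c ∧ TransGen (Step R b) a c) := by
  -- a chain missing `q` that starts strictly below `g q`-level stays there
  have low : ∀ q u v, TransGen (Step R q) u v → g u ≤ g q → g v < g q := by
    intro q u v huv
    induction huv with
    | single h1 =>
      obtain ⟨x, h2, h3, h4⟩ := h1
      intro hle
      rw [hR] at h2 h3 h4
      by_contra hcon
      exact h4 ⟨lt_of_lt_of_le h2.1 hle, lt_of_le_of_lt (not_lt.1 hcon) h3.2⟩
    | tail _ h1 ih =>
      obtain ⟨x, h2, h3, h4⟩ := h1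
      intro hle
      have hlt := ih hle
      rw [hR] at h2 h3 h4
      by_contra hcon
      exact h4 ⟨lt_trans h2.1 hlt, lt_of_le_of_lt (not_lt.1 hcon) h3.2⟩
  have sym : ∀ q u v, TransGen (Step R q) u v → TransGen (Step R q) v u := by
    intro q u v huv
    induction huv with
    | single h1 => exact TransGen.single (step_symm h1)
    | tail _ h1 ih => exact TransGen.head (step_symm h1) ih
  rintro ⟨h1, h2, h3⟩
  -- h1 : a ~ b missing c;  h2 : b ~ c missing a;  h3 : a ~ c missing b
  have h1' := sym _ _ _ h1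
  have h2' := sym _ _ _ h2
  have h3' := sym _ _ _ h3
  have e1 := low c a b h1
  have e2 := low c b a h1'
  have e3 := low a b c h2
  have e4 := low a c b h2'
  have e5 := low b a c h3
  have e6 := low b c a h3'
  rcases le_total (g a) (g b) with hab | hab <;> rcases le_total (g b) (g c) with hbc | hbc <;>
    rcases le_total (g a) (g c) with hac | hac
  · have := e5 hab; linarith
  · have := e5 hab; linarith
  · have := e1 hac; linarith
  · have := e3; have := e4 hac; linarith
  · have := e3 hab; linarith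
  · have := e2 hbc; linarith
  · have := e6 hbc; linarith
  · have := e6 hbc; linarith

theorem countable_of_rep {f g h : X → ℝ} (hR : ∀ x y, R x y ↔ f x < g y ∧ g y < h x) :
    ∃ D : Set X, D.Countable ∧
      ∀ x y, R x y → ∃ d ∈ D, ∃ d' ∈ D, R d y ∧ R d' y ∧ ∀ z, R d z → R d' z → R x z := by
  classical
  -- countable cofinal subsets
  have cof : ∀ (S : Set X) (φ : X → ℝ), ∃ D : Set X, D.Countable ∧ D ⊆ S ∧
      ∀ x ∈ S, ∃ d ∈ D, φ x ≤ φ d := by
    intro S φ
    let D1 : Set X := ⋃ q : ℚ, {x | ∃ hq : ∃ x ∈ S, (q : ℝ) < φ x, x = Classical.choose hq}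
    let D2 : Set X := {x | ∃ hm : ∃ x ∈ S, ∀ x' ∈ S, φ x' ≤ φ x, x = Classical.choose hm}
    refine ⟨D1 ∪ D2, ?_, ?_, ?_⟩
    · apply Set.Countable.union
      · apply Set.countable_iUnion
        intro q
        apply Set.Subsingleton.countable
        rintro x ⟨hx, rfl⟩ y ⟨hy, rfl⟩
        rfl
      · apply Set.Subsingleton.countable
        rintro x ⟨hx, rfl⟩ y ⟨hy, rfl⟩
        rfl
    · rintro x (hx | ⟨hm, rfl⟩)
      · obtain ⟨q, hq, rfl⟩ := Set.mem_iUnion.1 hx
        exact (Classical.choose_spec hq).1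
      · exact (Classical.choose_spec hm).1
    · intro x hx
      by_cases hmax : ∀ x' ∈ S, φ x' ≤ φ x
      · have hm : ∃ x ∈ S, ∀ x' ∈ S, φ x' ≤ φ x := ⟨x, hx, hmax⟩
        exact ⟨Classical.choose hm, Or.inr ⟨hm, rfl⟩, (Classical.choose_spec hm).2 x hx⟩
      · push Not at hmax
        obtain ⟨x', hx', hlt⟩ := hmax
        obtain ⟨q, hq1, hq2⟩ := exists_rat_btwn hlt
        have hq : ∃ x ∈ S, (q : ℝ) < φ x := ⟨x', hx', hq2⟩
        refine ⟨Classical.choose hq, Or.inl (Set.mem_iUnion.2 ⟨q, hq, rfl⟩), ?_⟩
        exact hq1.le.trans (Classical.choose_spec hq).2.le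
  choose E hEc hES hE using cof
  let W : ℚ × ℚ → Set X := fun p => {x | f x < p.1 ∧ (p.2 : ℝ) < h x}
  refine ⟨⋃ p : ℚ × ℚ, (E (W p) f ∪ E (W p) (fun x => - h x)), ?_, ?_⟩
  · exact Set.countable_iUnion (fun p => (hEc _ _).union (hEc _ _))
  · intro x y hxy
    rw [hR] at hxy
    obtain ⟨q, hq1, hq2⟩ := exists_rat_btwn hxy.1
    obtain ⟨s, hs1, hs2⟩ := exists_rat_btwn hxy.2
    have hxW : x ∈ W (q, s) := ⟨hq1, hs2⟩
    obtain ⟨d, hd, hfd⟩ := hE (W (q, s)) f x hxW
    obtain ⟨d', hd', hhd⟩ := hE (W (q, s)) (fun x => - h x) x hxW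
    have hdW : f d < q ∧ (s : ℝ) < h d := hES _ _ hd
    have hdW' : f d' < q ∧ (s : ℝ) < h d' := hES _ _ hd'
    refine ⟨d, Set.mem_iUnion.2 ⟨(q, s), Or.inl hd⟩, d', Set.mem_iUnion.2 ⟨(q, s), Or.inr hd'⟩,
      ?_, ?_, ?_⟩
    · rw [hR]
      exact ⟨hdW.1.trans hq2, hs1.trans hdW.2⟩
    · rw [hR]
      exact ⟨hdW'.1.trans hq2, hs1.trans hdW'.2⟩
    · intro z hz1 hz2
      rw [hR] at hz1 hz2 ⊢
      have : h d' ≤ h x := neg_le_neg_iff.1 hhd
      exact ⟨lt_of_le_of_lt hfd hz1.1, lt_of_lt_of_le hz2.2 this⟩

end Representation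

end Pool.Agent.ThreeFunction
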